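import Pool.Agent.W70.HR.Stm
import Pool.Agent.H387R2.U2

set_option autoImplicit false

open Finset Filter Topology

namespace Pool.Agent.W918.HR.Ctb

open Pool.Agent.H386R2.HL Pool.Agent.H387R2.Uni
open Pool.Agent.H361R2.PP (HH Wm)
open Pool.Agent.W70.HR (gW S_CTB)

lemma one_sub_sum_le' {ι : Type*} (s : Finset ι) (x : ι → ℝ) (h0 : ∀ i ∈ s, 0 ≤ x i)
    (h1 : ∀ i ∈ s, x i ≤ 1) : 1 - ∑ i ∈ s, x i ≤ ∏ i ∈ s, (1 - x i) := by
  classical
  induction s using Finset.induction_on with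
  | empty => simp
  | insert i s hi ih =>
    rw [sum_insert hi, prod_insert hi]
    have h2 := ih (fun j hj => h0 j (mem_insert_of_mem hj)) fun j hj => h1 j (mem_insert_of_mem hj)
    have h3 := h0 i (mem_insert_self _ _)
    have h4 := h1 i (mem_insert_self _ _)
    have h5 : 0 ≤ ∑ j ∈ s, x j := sum_nonneg fun j hj => h0 j (mem_insert_of_mem hj)
    calc 1 - (x i + ∑ j ∈ s, x j) ≤ (1 - x i) * (1 - ∑ j ∈ s, x j) := by nlinarith
      _ ≤ (1 - x i) * ∏ j ∈ s, (1 - x j) := mul_le_mul_of_nonneg_left h2 (by linarith)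

lemma nuT_le' (T : Finset ℕ) (p : ℕ) : nuT T p ≤ T.card := card_image_le

lemma locT_ge' (T : Finset ℕ) {p : ℕ} (hp : 2 ≤ p) (hTp : T.card ≤ p) :
    1 - (T.card : ℝ) ^ 2 * ((p : ℝ) ^ 2)⁻¹ ≤ locT T p := by
  unfold locT
  set r := T.card with hr
  have hp0 : (0:ℝ) < p := by exact_mod_cast (by omega : 0 < p)
  have hp2 : (2:ℝ) ≤ p := by exact_mod_cast hp
  set x : ℝ := 1 / p with hx
  have hx0 : 0 < x := by positivity
  have hx1 : x ≤ 1 / 2 := one_div_le_one_div_of_le (by norm_num) hp2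
  have hrx : (r:ℝ) * x ≤ 1 := by
    rw [hx, mul_one_div, div_le_one hp0]
    exact_mod_cast hTp
  have h1 : (1 - x) ^ r * (1 + r * x) ≤ 1 := by
    have h2 : 1 + (r:ℝ) * x ≤ (1 + x) ^ r := one_add_mul_le_pow (by linarith) r
    calc (1 - x) ^ r * (1 + r * x) ≤ (1 - x) ^ r * (1 + x) ^ r :=
          mul_le_mul_of_nonneg_left h2 (pow_nonneg (by linarith) _)
      _ = ((1 - x) * (1 + x)) ^ r := by rw [mul_pow]
      _ ≤ 1 := pow_le_one₀ (mul_nonneg (by linarith) (by linarith)) (by nlinarith)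
  have h2 : 0 < (1 - x) ^ r := pow_pos (by linarith) _
  rw [le_div_iff₀ h2]
  have h3 : (nuT T p : ℝ) / p ≤ r * x := by
    rw [hx, mul_one_div]
    apply div_le_div_of_nonneg_right _ hp0.le
    exact_mod_cast nuT_le' T p
  have h4 : 1 - (r:ℝ) ^ 2 * ((p : ℝ) ^ 2)⁻¹ = (1 - r * x) * (1 + r * x) := by
    rw [hx]; field_simp; ring
  rw [h4]
  calc (1 - r * x) * (1 + r * x) * (1 - x) ^ r = (1 - r * x) * ((1 - x) ^ r * (1 + r * x)) := by ring
    _ ≤ (1 - r * x) * 1 := mul_le_mul_of_nonneg_left h1 (by linarith)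
    _ ≤ 1 - (nuT T p : ℝ) / p := by linarith

lemma sum_inv_sq_gt' {y : ℕ} (hy : 1 ≤ y) (S : Finset ℕ) (hS : ∀ p ∈ S, y < p) :
    ∑ p ∈ S, ((p:ℝ) ^ 2)⁻¹ ≤ 1 / y := by
  have hy0 : (0:ℝ) < y := by exact_mod_cast hy
  rcases S.eq_empty_or_nonempty with rfl | hne
  · simp
  · have hsub : S ⊆ Ioc y (S.sup id) := by
      intro p hp
      rw [mem_Ioc]
      exact ⟨hS p hp, le_sup (f := id) hp⟩
    have hle : y ≤ S.sup id := by
      obtain ⟨p, hp⟩ := hne
      have := mem_Ioc.1 (hsub hp)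
      omega
    have h1 := sum_Ioc_inv_sq_le_sub (α := ℝ) (by omega : y ≠ 0) hle
    refine (sum_le_sum_of_subset_of_nonneg hsub fun i _ _ => by positivity).trans (h1.trans ?_)
    have : (0:ℝ) ≤ ((S.sup id : ℕ) : ℝ)⁻¹ := by positivity
    rw [one_div]
    linarith

/-- a prime below `y + 1` as an element of the type of primes -/
def mkP' (y : ℕ) (p : {x : ℕ // x ∈ (y + 1).primesBelow}) : Nat.Primes :=
  ⟨p.1, Nat.prime_of_mem_primesBelow p.2⟩

/-- the underlying natural number -/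
def toN' (p : Nat.Primes) : ℕ := (p : ℕ)

lemma toN_inj' : Function.Injective toN' := fun _ _ h => Nat.Primes.coe_nat_injective h

/-- lower bound of the singular series by a count of residues -/
theorem CT_ge' (T : Finset ℕ) (y : ℕ) (hy : 1 ≤ y) (hTy : T.card ≤ y) :
    (((WW y : ℝ) / Nat.totient (WW y)) ^ T.card * (gT (WW y) T / WW y)) *
      (1 - (T.card : ℝ) ^ 2 / y) ≤ CT T := by
  classical
  rw [← sy_en]
  have hprod := CT_hasProd T
  rw [HasProd] at hprod
  set F0 : Finset Nat.Primes := ((y + 1).primesBelow).attach.image (mkP' y) with hF0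
  have hmem : ∀ p : Nat.Primes, p ∈ F0 ↔ (p : ℕ) ∈ (y + 1).primesBelow := by
    intro p
    rw [hF0, mem_image]
    constructor
    · rintro ⟨a, _, rfl⟩
      exact a.2
    · intro h
      exact ⟨⟨p, h⟩, mem_attach _ _, rfl⟩
  have hy0 : (0:ℝ) < y := by exact_mod_cast hy
  have hF0' : ∏ p ∈ F0, locT T p = sy (en T) y := by
    unfold sy
    rw [hF0, prod_image]
    · rw [← prod_attach ((y + 1).primesBelow)]
      apply prod_congr rfl
      intro p _
      rw [loc_en]
      rfl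
    · intro a _ b _ hab
      have h9 : (a : ℕ) = b := congrArg (fun p : Nat.Primes => (p : ℕ)) hab
      exact Subtype.ext h9
  refine ge_of_tendsto hprod ?_
  filter_upwards [eventually_ge_atTop F0] with F hF
  have hF' : F0 ⊆ F := hF
  rw [← prod_sdiff hF']
  have h1 : 1 - (T.card : ℝ) ^ 2 / y ≤ ∏ p ∈ F \ F0, locT T p := by
    have hbig : ∀ p ∈ F \ F0, y < (p : ℕ) := by
      intro p hp
      rw [Finset.mem_sdiff, hmem, Nat.mem_primesBelow] at hp
      by_contra h
      exact hp.2 ⟨by omega, p.2⟩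
    have hr : ∀ p ∈ F \ F0, T.card ≤ (p : ℕ) := by
      intro p hp
      have := hbig p hp
      omega
    have hsum : ∑ p ∈ F \ F0, (T.card : ℝ) ^ 2 * (((p : ℕ) : ℝ) ^ 2)⁻¹ ≤ (T.card : ℝ) ^ 2 / y := by
      rw [← mul_sum]
      have h2 : ∑ p ∈ F \ F0, (((p : ℕ) : ℝ) ^ 2)⁻¹ ≤ 1 / y := by
        have h3 := sum_inv_sq_gt' hy ((F \ F0).image toN') (by
          intro p hp
          rw [mem_image] at hp
          obtain ⟨p', hp', rfl⟩ := hp
          exact hbig p' hp')
        rw [sum_image (fun a _ b _ hab => toN_inj' hab)] at h3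
        exact h3
      calc (T.card : ℝ) ^ 2 * ∑ p ∈ F \ F0, (((p : ℕ) : ℝ) ^ 2)⁻¹
          ≤ (T.card : ℝ) ^ 2 * (1 / y) := by gcongr
        _ = (T.card : ℝ) ^ 2 / y := by ring
    have h2 := one_sub_sum_le' (F \ F0) (fun p => (T.card : ℝ) ^ 2 * (((p : ℕ) : ℝ) ^ 2)⁻¹)
      (fun p _ => by positivity) (fun p hp => by
        have h3 : (T.card : ℝ) ≤ ((p : ℕ) : ℝ) := by exact_mod_cast hr p hp
        have h4 : (0:ℝ) < ((p : ℕ) : ℝ) := by exact_mod_cast p.2.pos
        rw [← div_eq_mul_inv, div_le_one (by positivity)]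
        exact pow_le_pow_left₀ (Nat.cast_nonneg _) h3 2)
    have h3 : ∏ p ∈ F \ F0, (1 - (T.card : ℝ) ^ 2 * (((p : ℕ) : ℝ) ^ 2)⁻¹) ≤
        ∏ p ∈ F \ F0, locT T p := by
      apply Finset.prod_le_prod
      · intro p hp
        have h3 : (T.card : ℝ) ≤ ((p : ℕ) : ℝ) := by exact_mod_cast hr p hp
        have h4 : (0:ℝ) < ((p : ℕ) : ℝ) := by exact_mod_cast p.2.pos
        rw [sub_nonneg, ← div_eq_mul_inv, div_le_one (by positivity)]
        exact pow_le_pow_left₀ (Nat.cast_nonneg _) h3 2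
      · intro p hp
        exact locT_ge' T p.2.two_le (hr p hp)
    linarith
  have h2 := sy_nonneg (en T) y
  rw [hF0', mul_comm]
  exact mul_le_mul_of_nonneg_right h1 h2

lemma WW_eq (X : ℕ) : WW (HH X) = Wm X := by
  unfold WW Wm primorial
  rfl

lemma gW_eq (X : ℕ) (T : Finset ℕ) : gW X T = gT (Wm X) T := by
  classical
  unfold gW gT
  congr 1
  ext b
  simp only [mem_filter, Nat.coprime_comm (n := Wm X)]

lemma HH_tendsto : Tendsto HH atTop atTop := by
  unfold HH
  refine tendsto_nat_floor_atTop.comp ?_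
  refine Tendsto.atTop_div_const (by norm_num) ?_
  exact Real.tendsto_log_atTop.comp (Real.tendsto_log_atTop.comp tendsto_natCast_atTop_atTop)

theorem ctb : S_CTB := by
  intro l Λ s hΛ hs
  -- the threshold for `y`
  have hls : 0 < Real.log (1 + s) := Real.log_pos (by linarith)
  set c : ℝ := |Real.log Λ| + 8 with hc
  have hc0 : 0 < c := by positivity
  set B : ℝ := 2 * (l : ℝ) ^ 2 * c / Real.log (1 + s) with hB
  obtain ⟨X₁, hX₁⟩ := (HH_tendsto.eventually_ge_atTop
    (max (max 2 l) (max ⌈Real.exp B⌉₊ ⌈(l : ℝ) ^ 2 / s⌉₊))).exists_forall_of_atTop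
  refine ⟨max X₁ 16, ?_⟩
  intro X hX T hTl hT
  set y := HH X with hy
  have hyb := hX₁ X (le_trans (le_max_left _ _) hX)
  have hy2 : 2 ≤ y := le_trans (le_trans (le_max_left _ _) (le_max_left _ _)) hyb
  have hyl : l ≤ y := le_trans (le_trans (le_max_right _ _) (le_max_left _ _)) hyb
  have hyB : Real.exp B ≤ y := by
    refine (Nat.le_ceil _).trans ?_
    exact_mod_cast le_trans (le_trans (le_max_left _ _) (le_max_right _ _)) hyb
  have hys : (l : ℝ) ^ 2 / s ≤ y := by
    refine (Nat.le_ceil _).trans ?_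
    exact_mod_cast le_trans (le_trans (le_max_right _ _) (le_max_right _ _)) hyb
  have hy0 : (0 : ℝ) < y := by positivity
  have hy2' : (2 : ℝ) ≤ y := by exact_mod_cast hy2
  have hy1' : (1 : ℝ) ≤ y := by linarith
  have hlogy : 0 < Real.log y := Real.log_pos (by linarith)
  have hA : (gW X T : ℝ) / Wm X * ((Wm X : ℝ) / Nat.totient (Wm X)) ^ l =
      ((WW y : ℝ) / Nat.totient (WW y)) ^ T.card * (gT (WW y) T / WW y) := by
    rw [hy, WW_eq, gW_eq, hTl]
    ring
  rw [hA]
  set A : ℝ := ((WW y : ℝ) / Nat.totient (WW y)) ^ T.card * (gT (WW y) T / WW y) with hAdef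
  have hA0 : 0 ≤ A := by positivity
  constructor
  · have h1 := CT_ge' T y (by omega) (by omega)
    refine le_trans ?_ h1
    rw [← hAdef, mul_comm (1 - s) A]
    refine mul_le_mul_of_nonneg_left ?_ hA0
    have : (T.card : ℝ) ^ 2 / y ≤ s := by
      rw [hTl, div_le_iff₀ hy0]
      rw [div_le_iff₀ hs] at hys
      linarith
    linarith
  · -- upper bound
    have hX16 : 16 ≤ X := le_trans (le_max_right _ _) hX
    have hX16' : (16 : ℝ) ≤ X := by exact_mod_cast hX16
    have hlogX : 1 < Real.log X := by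
      have h1 : Real.log 16 ≤ Real.log X := Real.log_le_log (by norm_num) hX16'
      have h2 : Real.log 16 = 4 * Real.log 2 := by
        rw [show (16 : ℝ) = 2 ^ 4 by norm_num, Real.log_pow]
        norm_num
      have := Real.log_two_gt_d9
      linarith
    have hllX : 0 < Real.log (Real.log X) := Real.log_pos hlogX
    have hlly : Real.log (Real.log X) < 4 * ((y : ℝ) + 1) := by
      have := Nat.lt_floor_add_one (Real.log (Real.log X) / 4)
      have h3 : ((⌊Real.log (Real.log X) / 4⌋₊ : ℕ) : ℝ) = y := by rw [hy]; rfl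
      rw [h3] at this
      linarith
    set M : ℕ := ⌊Λ * Real.log X⌋₊ with hM
    have hΛX : 0 < Λ * Real.log X := mul_pos hΛ (by linarith)
    have hTM : ∀ t ∈ T, t ≤ M := fun t ht => Nat.le_floor (hT t ht).2
    set K : ℝ := Real.exp (2 * c / Real.log y) with hK
    have hK1 : 1 ≤ K := Real.one_le_exp (by positivity)
    have htt : ∀ n : ℕ, 1 ≤ n → n ≤ M → tt y n ≤ K := by
      intro n hn hnM
      refine (tt_le y n hy2 hn).trans (Real.exp_le_exp.2 ?_)
      have hn0 : (0 : ℝ) < n := by exact_mod_cast hn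
      have h1 : Real.log n ≤ c * y := by
        have h2 : (n : ℝ) ≤ Λ * Real.log X := by
          have : (n : ℝ) ≤ M := by exact_mod_cast hnM
          exact this.trans (Nat.floor_le hΛX.le)
        have h3 : Real.log n ≤ Real.log (Λ * Real.log X) := Real.log_le_log hn0 h2
        rw [Real.log_mul hΛ.ne' (by linarith)] at h3
        have h4 := le_abs_self (Real.log Λ)
        have h5 : |Real.log Λ| ≤ |Real.log Λ| * y := le_mul_of_one_le_right (abs_nonneg _) hy1'
        rw [hc]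
        nlinarith
      rw [div_le_div_iff₀ (by positivity) hlogy]
      nlinarith
    have h1 := CT_le T y hK1 hTM htt
    rw [← hAdef] at h1
    refine h1.trans (mul_le_mul_of_nonneg_right ?_ hA0)
    rw [hTl, hK, ← Real.exp_nat_mul]
    have h2 : ((l * l : ℕ) : ℝ) * (2 * c / Real.log y) ≤ Real.log (1 + s) := by
      have h3 : B ≤ Real.log y := by
        rw [← Real.log_exp B]
        exact Real.log_le_log (Real.exp_pos _) hyB
      rw [hB, div_le_iff₀ hls] at h3
      push_cast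
      rw [← mul_div_assoc, div_le_iff₀ hlogy]
      nlinarith
    calc Real.exp (((l * l : ℕ) : ℝ) * (2 * c / Real.log y)) ≤ Real.exp (Real.log (1 + s)) :=
          Real.exp_le_exp.2 h2
      _ = 1 + s := Real.exp_log (by linarith)

end Pool.Agent.W918.HR.Ctb
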